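import Pool.Agent.TH771.GC.Close

/-!
# The levels `log n, n, n ^ 2, ...`
-/

set_option autoImplicit false

namespace Pool.Agent.TH771.GC

open Pool.Agent.NPC Pool.Agent.H620R2.Gauge Pool.Agent.TH678.ETH Filter
open Pool.Agent.H622R2
open Pool.Agent.W900.CH Pool.Agent.TH93.GL
open Pool.Agent.TH683.AT (poly_small)

theorem niceT_eval (p : Polynomial ℕ) : NiceT (fun n => n) (fun n => p.eval n) := by
  refine ⟨fun z => List.replicate (p.eval (unpair z).2.length) true,
    polyTime_of_poly_list (V7.poly_replicate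
      ((UPoly.length (Poly.snd poly_unpair)).eval p)), fun x => ?_⟩
  dsimp only
  rw [unpair_pairBits]

theorem niceT_id : NiceT (fun n => n) (fun n => n) := by
  have := niceT_eval Polynomial.X
  simpa only [Polynomial.eval_X] using this

theorem niceT_pow (k : ℕ) : NiceT (fun n => n) (fun n => n ^ k) := by
  have := niceT_eval (Polynomial.X ^ k)
  simpa only [Polynomial.eval_pow, Polynomial.eval_X] using this

theorem log_small (K : ℕ) : ∀ᶠ n : ℕ in atTop, K * (Nat.log 2 n + 1) < n := by
  obtain ⟨n₀, hn₀⟩ := poly_small (Polynomial.C (K + 1) * (Polynomial.X + 1))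
  filter_upwards [eventually_ge_atTop (2 ^ n₀)] with n hn
  have hn0 : n ≠ 0 := by
    have : 0 < 2 ^ n₀ := by positivity
    omega
  have h1 := hn₀ (Nat.log 2 n) (Nat.le_log_of_pow_le (by norm_num) hn)
  simp only [Polynomial.eval_mul, Polynomial.eval_C, Polynomial.eval_add, Polynomial.eval_X,
    Polynomial.eval_one] at h1
  have h2 := Nat.pow_log_le_self 2 hn0
  have h3 : (K + 1) * (Nat.log 2 n + 1) = K * (Nat.log 2 n + 1) + (Nat.log 2 n + 1) := by ring
  omega

theorem gap_log (d c : ℕ) : ∀ᶠ n : ℕ in atTop,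
    d * (Nat.log 2 n + 1) + c * (Nat.log 2 n + 1) < n := by
  filter_upwards [log_small (d + c)] with n hn
  rw [← add_mul]
  exact hn

theorem gap_pow (k d c : ℕ) (hk : 1 ≤ k) : ∀ᶠ n : ℕ in atTop,
    d * n ^ k + c * (Nat.log 2 n + 1) < n ^ (k + 1) := by
  filter_upwards [log_small c, eventually_ge_atTop (d + 1)] with n h1 h2
  have h3 : n ≤ n ^ k := by
    calc n = n ^ 1 := (pow_one n).symm
      _ ≤ n ^ k := Nat.pow_le_pow_right (by omega) hk
  calc d * n ^ k + c * (Nat.log 2 n + 1) < d * n ^ k + n ^ k := by omega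
    _ = (d + 1) * n ^ k := by ring
    _ ≤ n * n ^ k := Nat.mul_le_mul_right _ h2
    _ = n ^ (k + 1) := by ring

end Pool.Agent.TH771.GC
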