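import Pool.Agent.TH93.GL.Np
import Pool.Agent.W900.CH.EFar
import Pool.Agent.W900.CH.NELev

/-!
# The law for the number of guessed bits, after changes of the random oracle
-/

set_option autoImplicit false

namespace Pool.Agent.TH771.GC

open Pool.Agent.NPC Pool.Agent.H620R2.Gauge Finset H568R2 Pool.Agent.H676 Pool.Agent.TH678.ETH
open Pool.Agent.W900.CH Pool.Agent.TH93.GL MeasureTheory Filter
open Pool.Agent.H628R3.RO (randomOracle)

theorem ran_eq : ranO = randomOracle := rfl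

/-- All the levels at once: the oracles relative to which some level `g` has its test language in
a much smaller level form a null set. -/
theorem null_all {f : ℕ → ℝ} (hf : Cond f) :
    Null f {A | ∃ g h : ℕ → ℕ, NiceT (fun n => n) g ∧
      (∀ c : ℕ, ∀ᶠ n : ℕ in atTop, h n + c * (Nat.log 2 n + 1) < g n) ∧
      InGuessAdv (fun n => n) h A (hitG g A)} := by
  have hcp : Countable (Polynomial ℕ) := countable_polyN
  have hcg : Countable {g : ℕ → ℕ // NiceT (fun n => n) g} :=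
    (countable_niceT (fun n => n)).to_subtype
  have h1 : Null f (⋃ θ : {g : ℕ → ℕ // NiceT (fun n => n) g} × Alg × Polynomial ℕ × ℕ,
      {A | (∀ n ≥ θ.2.2.2, 1 ≤ θ.1.1 n) ∧
      ∀ n ≥ θ.2.2.2, A ∈ Ev (famN (fun n => n) θ.2.1 θ.2.2.1) θ.1.1 n}) := by
    apply null_iUnion
    rintro ⟨⟨g, hg⟩, M, r, n₀⟩
    obtain ⟨S, hS⟩ := hg.poly (fun _ => le_rfl)
    by_cases h : ∀ n ≥ n₀, 1 ≤ g n
    · obtain ⟨B, hB⟩ := locN g S hS M r
      refine (null_fam hf (goodN (fun n => n) g M r) S hS B hB n₀ h).mono ?_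
      rintro A ⟨_, hA⟩
      exact hA
    · refine (null_empty f).mono ?_
      rintro A ⟨hA, _⟩
      exact absurd hA h
  refine h1.mono ?_
  rintro A ⟨g, h, hg, hgh, V, a, r, ⟨M, hM⟩, ha, hx⟩
  obtain ⟨S, hS⟩ := hg.poly (fun _ => le_rfl)
  obtain ⟨c, hc⟩ := bdN (fun n => n) g (fun _ => le_rfl) S hS M r
  obtain ⟨n₀, hn₀⟩ := eventually_atTop.1 (hgh (c + 5))
  rw [Set.mem_iUnion]
  refine ⟨(⟨g, hg⟩, M, r, n₀), fun n hn => ?_, fun n hn => ?_⟩
  · have := hn₀ n hn
    show 1 ≤ g n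
    omega
  · have h2 := hn₀ n hn
    refine ⟨h n, ?_, ?_, a n, ha n, fun x hxn => ?_⟩
    · show h n ≤ g n
      omega
    · have h5 := hc n (h n) (by omega)
      have h6 : 5 + (h n + c * (Nat.log 2 n + 1)) ≤ g n := by
        have e1 : (c + 5) * (Nat.log 2 n + 1) = c * (Nat.log 2 n + 1) +
          5 * (Nat.log 2 n + 1) := by ring
        omega
      calc 32 * (famN (fun n => n) M r).T n (h n) ≤
            2 ^ 5 * 2 ^ (h n + c * (Nat.log 2 n + 1)) := by
            norm_num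
            exact h5
        _ = 2 ^ (5 + (h n + c * (Nat.log 2 n + 1))) := by rw [← pow_add]
        _ ≤ _ := Nat.pow_le_pow_right (by norm_num) h6
    · have h3 := hx x
      rw [hxn] at h3
      show _ ↔ x ∈ hitG g A
      rw [h3]
      show (∃ w : List Bool, _) ↔ (∃ w : List Bool, _)
      refine exists_congr fun w => and_congr_right fun _ => ?_
      rw [hxn, hM, Option.some.injEq]

section

variable {I : Type*} [Fintype I] [DecidableEq I]

open Classical in
/-- An event which is possible after few changes. -/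
theorem ex_change (P : (I → Bool) → Prop) (s : ℕ) :
    Ex unif (fun a : I → Bool => if ∃ b, (df a b).card ≤ s ∧ P b then (1 : ℝ) else 0) ≤
      ((Fintype.card I : ℝ) + 1) ^ s *
        Ex unif (fun a : I → Bool => if P a then (1 : ℝ) else 0) := by
  rw [Ex_ind, Ex_ind, ← mul_assoc]
  refine mul_le_mul_of_nonneg_right ?_ (by positivity)
  have hsub : (univ.filter fun a : I → Bool => ∃ b, (df a b).card ≤ s ∧ P b) ⊆
      ((univ.filter P) ×ˢ ((univ : Finset I).powerset.filter (fun D => D.card ≤ s))).image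
        (fun q => ch q.1 q.2) := by
    intro a ha
    rw [Finset.mem_filter] at ha
    obtain ⟨_, b, hb, hP⟩ := ha
    rw [Finset.mem_image]
    refine ⟨(b, df a b), ?_, ch_df a b⟩
    rw [Finset.mem_product, Finset.mem_filter, Finset.mem_filter, Finset.mem_powerset]
    exact ⟨⟨mem_univ _, hP⟩, subset_univ _, hb⟩
  have h1 := (Finset.card_le_card hsub).trans Finset.card_image_le
  rw [Finset.card_product] at h1
  have h2 := card_small' (univ : Finset I) s
  rw [Finset.card_univ] at h2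
  have h3 := h1.trans (Nat.mul_le_mul_left _ h2)
  rw [mul_comm] at h3
  exact_mod_cast h3

end

/-- the numbers -/
theorem num_close (C P : Polynomial ℕ) {G : ℕ → ℝ}
    (hG : ∀ ε : ℝ, 0 < ε → ∀ᶠ n : ℕ in atTop, G n ≤ 2 ^ (n : ℝ) ^ ε) :
    ∀ᶠ n : ℕ in atTop, (((2 ^ (C.eval n + n + 1) : ℕ) : ℝ) + 1) ^ ⌊G (C.eval n + n + 1)⌋₊ *
      (2 ^ P.eval n * (7 / 8) ^ 2 ^ n) ≤ (1 / 2 : ℝ) ^ n := by
  set C' : Polynomial ℕ := C + Polynomial.X + 1 with hC'
  have hev : ∀ n, C'.eval n = C.eval n + n + 1 := by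
    intro n
    rw [hC']
    simp
  obtain ⟨D, hD⟩ : ∃ D, D = C'.natDegree + 1 := ⟨_, rfl⟩
  have hD0 : (0 : ℝ) < D := by rw [hD]; positivity
  have h1 : Tendsto (fun n => C'.eval n) atTop atTop := by
    refine tendsto_atTop_mono (fun n => ?_) tendsto_id
    rw [hev]
    show n ≤ _
    omega
  have h2 := h1.eventually (hG (1 / (2 * (D : ℝ))) (by positivity))
  filter_upwards [h2, V69_ev (C' + P + Polynomial.X + 1) 1, eventually_ge_atTop 1,
    eventually_ge_atTop (C'.eval 1)] with n h3 h4 h5 h6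
  obtain ⟨h7, _, h8, _⟩ := h4
  simp only [Polynomial.eval_add, Polynomial.eval_X, Polynomial.eval_one] at h7
  rw [← hev]
  set m := C'.eval n with hm
  obtain ⟨s, hs⟩ : ∃ s, s = ⌊G m⌋₊ := ⟨_, rfl⟩
  rw [← hs]
  set u := n / 2 with hu
  have h2u : 2 * u ≤ n := Nat.mul_div_le n 2
  have h9 : m ≤ n ^ D := by
    calc m ≤ C'.eval 1 * n ^ C'.natDegree := Y_poly_le C' n h5
      _ ≤ n * n ^ C'.natDegree := Nat.mul_le_mul_right _ h6
      _ = n ^ D := by rw [hD, pow_succ]; ring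
  have h10 : (s : ℝ) ≤ 2 ^ Real.sqrt n := by
    have e1 : (s : ℝ) ≤ 2 ^ (m : ℝ) ^ (1 / (2 * (D : ℝ))) := by
      rw [hs]
      rcases le_total 0 (G m) with h | h
      · exact (Nat.floor_le h).trans h3
      · rw [Nat.floor_of_nonpos h]
        push_cast
        positivity
    refine e1.trans (Real.rpow_le_rpow_of_exponent_le (by norm_num) ?_)
    calc (m : ℝ) ^ (1 / (2 * (D : ℝ))) ≤ ((n : ℝ) ^ D) ^ (1 / (2 * (D : ℝ))) := by
          apply Real.rpow_le_rpow (by positivity) _ (by positivity)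
          exact_mod_cast h9
      _ = (n : ℝ) ^ (1 / 2 : ℝ) := by
          rw [← Real.rpow_natCast, ← Real.rpow_mul (by positivity)]
          congr 1
          field_simp
      _ = Real.sqrt n := by rw [Real.sqrt_eq_rpow]
  have h11 : 16 * s ≤ 2 ^ u := by
    have e1 : (s : ℝ) ≤ 2 ^ ((u : ℝ) - 4) :=
      h10.trans (Real.rpow_le_rpow_of_exponent_le (by norm_num) (by linarith))
    rw [Real.rpow_sub (by norm_num), Real.rpow_natCast] at e1
    have e2 : (2 : ℝ) ^ (4 : ℝ) = 16 := by norm_num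
    rw [e2] at e1
    have e3 : 16 * (s : ℝ) ≤ 2 ^ u := by linarith
    exact_mod_cast e3
  -- the exponent
  obtain ⟨k, hk⟩ : ∃ k, k = (m + 1) * s + P.eval n + n := ⟨_, rfl⟩
  have h12 : 8 * k ≤ 2 ^ n := by
    have e1 : (64 * (m + 1)) * (16 * s) ≤ 2 ^ u * 2 ^ u := Nat.mul_le_mul (by omega) h11
    have e2 : 2 ^ u * 2 ^ u ≤ 2 ^ n := by
      rw [← pow_add]
      exact Nat.pow_le_pow_right (by norm_num) (by omega)
    have e3 : 64 * (P.eval n + n) ≤ 2 ^ n := by
      have : 2 ^ u ≤ 2 ^ n := Nat.pow_le_pow_right (by norm_num) (by omega)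
      omega
    have e4 : (64 * (m + 1)) * (16 * s) = 1024 * ((m + 1) * s) := by ring
    rw [hk]
    omega
  have h13 : ((7 : ℝ) / 8) ^ 2 ^ n ≤ (1 / 2) ^ k := by
    calc ((7 : ℝ) / 8) ^ 2 ^ n ≤ (7 / 8) ^ (8 * k) :=
          pow_le_pow_of_le_one (by norm_num) (by norm_num) h12
      _ = ((7 / 8) ^ 8) ^ k := by rw [pow_mul]
      _ ≤ _ := pow_le_pow_left₀ (by norm_num) (by norm_num) _
  have h14 : (((2 ^ m : ℕ) : ℝ) + 1) ^ s ≤ 2 ^ ((m + 1) * s) := by
    rw [pow_mul]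
    apply pow_le_pow_left₀ (by positivity)
    push_cast
    have : (1 : ℝ) ≤ 2 ^ m := one_le_pow₀ (by norm_num)
    rw [pow_succ]
    linarith
  calc (((2 ^ m : ℕ) : ℝ) + 1) ^ s * (2 ^ P.eval n * (7 / 8) ^ 2 ^ n) ≤
        2 ^ ((m + 1) * s) * (2 ^ P.eval n * (1 / 2) ^ k) := by gcongr
    _ = (2 ^ ((m + 1) * s) * (1 / 2) ^ ((m + 1) * s)) * (2 ^ P.eval n * (1 / 2) ^ P.eval n) *
        (1 / 2) ^ n := by
        rw [hk, pow_add, pow_add]
        ring
    _ = _ := by
        rw [← mul_pow, ← mul_pow]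
        norm_num

open Classical in
/-- After few changes, the event happens for finitely many lengths only. -/
theorem ae_ev_close {Φ : Fam} {g : ℕ → ℕ} (hΦ : Φ.Good g)
    (S : Polynomial ℕ) (hS : ∀ n, g n ≤ S.eval n)
    (B : Polynomial ℕ) (hB : ∀ n, ∀ η ≤ g n, ∀ a x : List Bool, a.length ≤ Φ.r.eval n →
      x.length = n → ∀ A A' : Oracle, (∀ q : List Bool, q.length ≤ B.eval n → A q = A' q) →
      (Φ.F η a x A ↔ Φ.F η a x A')) {G : ℕ → ℝ}
    (hG : ∀ ε : ℝ, 0 < ε → ∀ᶠ n : ℕ in atTop, G n ≤ 2 ^ (n : ℝ) ^ ε) :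
    ∀ᵐ O ∂randomOracle, ∀ A, Close G O A → ∃ n₀ : ℕ, ∀ n ≥ n₀, 1 ≤ g n → A ∉ Ev Φ g n := by
  obtain ⟨n₀, hn₀⟩ := eventually_atTop.1 (num_close (B + 2 * S) (S + 2 * Φ.r) hG)
  simp only [Polynomial.eval_add, Polynomial.eval_mul, Polynomial.eval_ofNat] at hn₀
  set N : ℕ → ℕ := fun n => 2 ^ (B.eval n + 2 * S.eval n + n + 1) with hN
  set s : ℕ → ℕ := fun n => ⌊G (B.eval n + 2 * S.eval n + n + 1)⌋₊ with hs
  set F : ℕ → Set Oracle := fun n => {O | 1 ≤ g n ∧ ∃ A ∈ Ev Φ g n,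
    (df (pre (N n) O) (pre (N n) A)).card ≤ s n} with hF
  have hpr : ∀ n ≥ n₀, ranO (F n) ≤ ENNReal.ofReal ((1 / 2) ^ n) := by
    intro n hn
    by_cases hg : 1 ≤ g n
    · have hSn := hS n
      obtain ⟨P, hP, hPb⟩ := ev_prefix hΦ hg (hB n) (N := N n) (by
          have : 2 ^ (n + 2 * g n + 1) ≤ 2 ^ (B.eval n + 2 * S.eval n + n + 1) :=
            Nat.pow_le_pow_right (by norm_num) (by omega)
          rw [hN]
          dsimp only
          omega) (by
          have : 2 ^ (B.eval n + 1) ≤ 2 ^ (B.eval n + 2 * S.eval n + n + 1) :=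
            Nat.pow_le_pow_right (by norm_num) (by omega)
          rw [hN]
          dsimp only
          omega)
      refine (measure_mono (t := {O | ∃ b, (df (pre (N n) O) b).card ≤ s n ∧ P b}) ?_).trans ?_
      · rintro O ⟨_, A, hA, hd⟩
        exact ⟨pre (N n) A, hd, hP A hA⟩
      · refine (Pool.Agent.TH683.CP.ranO_pre
          (fun a : Fin (N n) → Bool => ∃ b, (df a b).card ≤ s n ∧ P b)).trans
          (ENNReal.ofReal_le_ofReal ?_)
        refine (ex_change P (s n)).trans ?_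
        rw [Fintype.card_fin]
        refine le_trans ?_ (hn₀ n hn)
        refine mul_le_mul_of_nonneg_left (hPb.trans ?_) (by positivity)
        apply mul_le_mul_of_nonneg_right _ (by positivity)
        rw [pow_add]
        apply mul_le_mul_of_nonneg_right _ (by positivity)
        have h1 : g n + 1 ≤ 2 ^ S.eval n := by
          have : S.eval n + 1 ≤ 2 ^ S.eval n := Nat.lt_two_pow_self
          omega
        exact_mod_cast h1
    · have : F n = ∅ := by
        ext O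
        simp [hF, hg]
      rw [this, measure_empty]
      exact zero_le
  have hsum : ∑' m, ranO (F (n₀ + m)) ≠ ⊤ := by
    have h1 : ∑' m, ranO (F (n₀ + m)) ≤ ∑' m : ℕ, (2⁻¹ : ENNReal) ^ m := by
      refine ENNReal.tsum_le_tsum fun m => ?_
      refine (hpr (n₀ + m) (by omega)).trans ?_
      have h2 : ENNReal.ofReal ((1 / 2) ^ (n₀ + m)) ≤ ENNReal.ofReal ((1 / 2) ^ m) := by
        apply ENNReal.ofReal_le_ofReal
        exact pow_le_pow_of_le_one (by norm_num) (by norm_num) (by omega)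
      refine h2.trans (le_of_eq ?_)
      rw [ENNReal.ofReal_pow (by norm_num), one_div, ENNReal.ofReal_inv_of_pos (by positivity)]
      simp
    refine ne_top_of_le_ne_top ?_ h1
    rw [ENNReal.tsum_geometric, ENNReal.one_sub_inv_two, inv_inv]
    exact ENNReal.ofNat_ne_top
  have h2 : ∀ᵐ O ∂randomOracle, ∀ᶠ m in atTop, O ∉ F (n₀ + m) := ae_eventually_notMem hsum
  filter_upwards [h2] with O hO A hA
  obtain ⟨n₁, hn₁⟩ := eventually_atTop.1 hO
  obtain ⟨n₂, hn₂⟩ := eventually_atTop.1 hA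
  refine ⟨n₀ + n₁ + n₂, fun n hn hg hE => ?_⟩
  have h3 := hn₁ (n - n₀) (by omega)
  rw [Nat.add_sub_cancel' (by omega)] at h3
  apply h3
  refine ⟨hg, A, hE, (df_pre O A _).trans (Nat.le_floor ?_)⟩
  have h4 : Nat.log 2 (N n) = B.eval n + 2 * S.eval n + n + 1 := by
    rw [hN]
    exact Nat.log_pow (by norm_num) _
  rw [h4]
  exact hn₂ _ (by omega)

/-- **The law after few changes.** -/
theorem law_close {G : ℕ → ℝ}
    (hG : ∀ ε : ℝ, 0 < ε → ∀ᶠ n : ℕ in atTop, G n ≤ 2 ^ (n : ℝ) ^ ε) :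
    ∀ᵐ O ∂randomOracle, ∀ A, Close G O A → ∀ g h : ℕ → ℕ, NiceT (fun n => n) g → List.TFAE [
      ∀ L, InGuess (fun n => n) g A L → InGuess (fun n => n) h A L,
      ∀ L, InGuess (fun n => n) g A L → InGuessAdv (fun n => n) h A L,
      ∃ c, ∀ n, g n ≤ h n + c * (Nat.log 2 n + 1)] := by
  have hcp : Countable (Polynomial ℕ) := countable_polyN
  have key : ∀ᵐ O ∂randomOracle, ∀ g, NiceT (fun n => n) g → ∀ A, Close G O A →
      ∀ θ : Alg × Polynomial ℕ, ∃ n₀ : ℕ, ∀ n ≥ n₀,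
      1 ≤ g n → A ∉ Ev (famN (fun n => n) θ.1 θ.2) g n := by
    refine (ae_ball_iff (μ := randomOracle) (countable_niceT (fun n => n))).2 fun g hg => ?_
    have hg' : NiceT (fun n => n) g := hg
    obtain ⟨S, hS⟩ := hg'.poly (fun _ => le_rfl)
    have h1 : ∀ᵐ O ∂randomOracle, ∀ θ : Alg × Polynomial ℕ, ∀ A, Close G O A →
        ∃ n₀ : ℕ, ∀ n ≥ n₀, 1 ≤ g n → A ∉ Ev (famN (fun n => n) θ.1 θ.2) g n := by
      refine ae_all_iff.2 fun θ => ?_
      obtain ⟨B, hB⟩ := locN g S hS θ.1 θ.2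
      exact ae_ev_close (goodN (fun n => n) g θ.1 θ.2) S hS B hB hG
    filter_upwards [h1] with O hO A hA θ
    exact hO θ A hA
  filter_upwards [key] with O hO A hA g h hg
  tfae_have 1 → 2 := fun h1 L hL => (h1 L hL).adv
  tfae_have 2 → 3 := by
    intro h2
    obtain ⟨S, hS⟩ := hg.poly (fun _ => le_rfl)
    obtain ⟨V, a, r, ⟨M, hM⟩, ha, hx⟩ := h2 _ (hitG_guess hg A)
    obtain ⟨n₀, hn₀⟩ := hO g hg A hA (M, r)
    refine small_of_not_ev (bdN (fun n => n) g (fun _ => le_rfl) S hS M r) hn₀ ha fun x => ?_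
    rw [hx x]
    refine exists_congr fun w => and_congr_right fun _ => ?_
    rw [hM, Option.some.injEq]
  tfae_have 3 → 1 := by
    rintro ⟨c, hc⟩ L hL
    exact hL.save hg hc
  tfae_finish

end Pool.Agent.TH771.GC
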